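import Pool.Agent.Helper53.UW.Num
import Pool.Agent.Helper62.UV.LPR
import Pool.Agent.Helper81.Sus2.PRM
import Pool.Agent.Helper81.Sus2.Fin

/-!
# PROJECT UR3 (MP_c578c8_lc), packet UW-PMW: the parameters are computed in linear space and bounded
-/

namespace Pool.Agent.Helper41.UW

open Pool.Agent.Helper65.LinSpace Pool.Agent.Helper78.Mpc Pool.Agent.Helper28.Ram Filter
open Pool.Agent.Helper65.BR (bT lT)
open Pool.Agent.Helper28.Long (ZL ZL_le)
open Pool.Agent.Helper53.UV (okV LSParOK)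
open Pool.Agent.Helper53.UW
open Pool.Agent.Helper59.Ram (LS_gR LS_CR CM_le_CR pow_ll_le)
open Pool.Agent.Helper56.BR (ls_bT)
open Pool.Agent.Helper62.UV (ls_okV)
open Pool.Agent.Helper81.Sus2 (Prm LSP Cod CodE COD_stmt NBM Decomp cdeN CS exists_cdeN ev_cod)
open Pool.Agent.Helper81.Sus2H88 (two_pow_le_CS CR_le_CS le01_le le01_eq_one)

theorem eq01_le (a b : ℕ) : eq01 a b ≤ 1 := by
  unfold eq01
  split_ifs <;> omega

theorem okW_le (n T : ℕ) : okW n T ≤ 1 := by
  unfold okW okV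
  exact Nat.mul_le_mul (Nat.mul_le_mul (le01_le _ _) (Nat.mul_le_mul (le01_le _ _) (le01_le _ _)))
    (Nat.mul_le_mul (eq01_le _ _) (Nat.mul_le_mul (eq01_le _ _)
      (Nat.mul_le_mul (le01_le _ _) (le01_le _ _))))

theorem okW_mul_le (n T k : ℕ) : okW n T * k ≤ k := by
  calc okW n T * k ≤ 1 * k := Nat.mul_le_mul_right _ (okW_le n T)
    _ = k := one_mul k

theorem okW_S_lt (n T : ℕ) : okW n T * (bT n T 0 - 5 * ll n) < gR n := by
  have h := okW_le n T
  rcases Nat.eq_zero_or_pos (okW n T) with h0 | h0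
  · rw [h0, zero_mul]
    unfold gR
    exact Nat.succ_pos _
  · have h1 : okW n T = 1 := by omega
    have h2 : okW n T ≠ 0 := by omega
    unfold okW at h2
    have h3 := right_ne_zero_of_mul (right_ne_zero_of_mul (right_ne_zero_of_mul
      (right_ne_zero_of_mul h2)))
    have h4 := le01_eq_one h3
    rw [h1, one_mul]
    omega

theorem bT_le_ZL (n T i : ℕ) : bT n T i ≤ ZL n := min_le_right _ _

theorem ls_okW {α : Type} [Ctx α] {n T : α → ℕ} (hn : LS n) (hT : LS T) :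
    LS (fun z => okW (n z) (T z)) := by
  have hl : LS (fun z => ll (n z)) := by fun_prop
  have h5 : LS (fun z => 5 * ll (n z)) := LS.mul (LS.const 5) hl
  have hb : ∀ i : ℕ, LS (fun z => bT (n z) (T z) i) := fun i => ls_bT i hn hT
  unfold okW
  exact LS.mul (ls_okV hn hT) (LS.mul (LS.eq01 (hb 2) (hb 0)) (LS.mul (LS.eq01 (hb 3) (hb 0))
    (LS.mul (LS.le01 h5 (hb 0)) (LS.le01 (LS.add (LS.sub (hb 0) h5) (LS.const 1)) (LS_gR hn)))))

theorem gPMW : GoalPMW := by
  intro _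
  refine ⟨?_, ?_, ?_⟩
  · intro α _ c₀ e x y T he hx hy hT
    have hn : LS (fun z => Nat.log 2 (x z)) := LS.log2 hx
    have hG : LS (fun z => okW (Nat.log 2 (x z)) (T z)) := ls_okW hn hT
    have hb : ∀ i : ℕ, LS (fun z => bT (Nat.log 2 (x z)) (T z) i) := fun i => ls_bT i hn hT
    have hl : LS (fun z => ll (Nat.log 2 (x z))) := by fun_prop
    have hc : ∀ i : ℕ, LS (fun z => dig (Nat.unpair (e z)).1 (Nat.unpair (e z)).2 i) :=
      fun i => by fun_prop
    have hCR : LS (fun z => CR (x z)) := LS_CR hx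
    refine ⟨⟨hc 0, hc 1, hc 2, hc 3, hc 4, hc 5, hc 9, hc 10, hc 6, hc 7, hc 8, LS.LW hn, ?_, hCR,
      hx, hy, LS.mul hG (LS.sub (hb 0) (LS.mul (LS.const 5) hl)), LS.mul hG (hb 1),
      LS.mul (LS.const c₀) hn, LS.mul hG (hb 0), LS.const 0, ?_, ?_, ?_, ?_, ?_, ?_, ?_, ?_⟩, hG⟩
    · exact LS.pow_of_le (f := fun _ => 2) (by fun_prop) (LS.mul (LS.const 2) hl) hCR
        fun z => pow_ll_le (x z)
    · unfold CS
      exact (LS.add hx (LS.const 2)).pow_const (8000 + 41 * c₀)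
    · intro z
      show 0 < 2 ^ (2 * ll (Nat.log 2 (x z)))
      positivity
    · intro z
      exact ((beta_pow_le (x z)).trans (CM_le_CR (x z))).trans (CR_le_CS c₀ (x z))
    · intro z
      refine two_pow_le_CS c₀ ?_
      have h1 : (prmW c₀ (e z) (x z) (y z) (T z)).S = okW (Nat.log 2 (x z)) (T z) *
        (bT (Nat.log 2 (x z)) (T z) 0 - 5 * ll (Nat.log 2 (x z))) := rfl
      have h2 := okW_mul_le (Nat.log 2 (x z)) (T z)
        (bT (Nat.log 2 (x z)) (T z) 0 - 5 * ll (Nat.log 2 (x z)))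
      have h3 := bT_le_ZL (Nat.log 2 (x z)) (T z) 0
      have h4 := ZL_le (Nat.log 2 (x z))
      rw [h1]
      omega
    · intro z
      refine two_pow_le_CS c₀ ?_
      have h1 : (prmW c₀ (e z) (x z) (y z) (T z)).Z = okW (Nat.log 2 (x z)) (T z) *
        bT (Nat.log 2 (x z)) (T z) 1 := rfl
      have h2 := okW_mul_le (Nat.log 2 (x z)) (T z) (bT (Nat.log 2 (x z)) (T z) 1)
      have h3 := bT_le_ZL (Nat.log 2 (x z)) (T z) 1
      have h4 := ZL_le (Nat.log 2 (x z))
      rw [h1]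
      omega
    · intro z
      refine two_pow_le_CS c₀ ?_
      have h1 : (prmW c₀ (e z) (x z) (y z) (T z)).V = okW (Nat.log 2 (x z)) (T z) *
        bT (Nat.log 2 (x z)) (T z) 0 := rfl
      have h2 := okW_mul_le (Nat.log 2 (x z)) (T z) (bT (Nat.log 2 (x z)) (T z) 0)
      have h3 := bT_le_ZL (Nat.log 2 (x z)) (T z) 0
      have h4 := ZL_le (Nat.log 2 (x z))
      rw [h1]
      omega
    · intro z
      show 2 ^ (c₀ * Nat.log 2 (x z)) ≤ CS c₀ (x z)
      rw [mul_comm, pow_mul]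
      unfold CS
      have h1 : 2 ^ Nat.log 2 (x z) ≤ x z + 2 := by
        rcases Nat.eq_zero_or_pos (x z) with h | h
        · rw [h]
          simp
        · exact (Nat.pow_log_le_self 2 h.ne').trans (by omega)
      exact (Nat.pow_le_pow_left h1 c₀).trans (Nat.pow_le_pow_right (by omega) (by omega))
    · intro z
      refine two_pow_le_CS c₀ ?_
      show 0 + 2 ≤ _
      omega
  · intro c₀ e x y T
    show okW (Nat.log 2 x) T * (bT (Nat.log 2 x) T 0 - 5 * ll (Nat.log 2 x)) ≤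
      okW (Nat.log 2 x) T * bT (Nat.log 2 x) T 0
    exact Nat.mul_le_mul_left _ (Nat.sub_le _ _)
  · intro hCOD A E
    obtain ⟨cd, c₁, hcd⟩ := hCOD A E
    obtain ⟨e, he⟩ := exists_cdeN cd
    obtain ⟨n₀, hn₀⟩ := eventually_atTop.1 (ev_cod c₁)
    refine ⟨e, n₀, fun w y hw c₀ T => ?_⟩
    have hlog : Nat.log 2 (num w) = w.length := Pool.Agent.Helper65.LinSpace.log_num w
    have h5 : (prmW c₀ e (num w) (num y) T).S < gR w.length := by
      have := okW_S_lt (Nat.log 2 (num w)) T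
      rw [hlog] at this
      show okW (Nat.log 2 (num w)) T * (bT (Nat.log 2 (num w)) T 0 - 5 * ll (Nat.log 2 (num w))) <
        gR w.length
      rw [hlog]
      exact this
    have h6 : (prmW c₀ e (num w) (num y) T).Z ≤ ZL w.length := by
      show okW (Nat.log 2 (num w)) T * bT (Nat.log 2 (num w)) T 1 ≤ ZL w.length
      rw [hlog]
      exact (okW_mul_le _ _ _).trans (bT_le_ZL _ _ _)
    obtain ⟨g1, g2, g3⟩ := hn₀ w.length hw _ h5 _ h6
    obtain ⟨g4, g5⟩ := g3 (num w) hlog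
    refine hcd w y _ he rfl rfl ?_ ?_ g4 g5
    · show _ ≤ LW (Nat.log 2 (num w))
      rw [hlog]
      exact g1
    · show c₁ + LW (Nat.log 2 (num w)) + _ + _ + 8 ≤ 2 ^ (2 * ll (Nat.log 2 (num w)))
      rw [hlog]
      exact g2

end Pool.Agent.Helper41.UW
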